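import Pool.Agent.helper84.QI.Spec

/-! Project QI (MP_fd6eef_al): proof of `QFI_stmt` (the subgroup `Q` has infinite index). -/

set_option autoImplicit false

namespace Pool.Agent.QI

theorem QFI : QFI_stmt := by
  intro G _ _ ω Q hω hQ hC hfi
  haveI := hfi
  have hfg : Q.FG := (Group.fg_iff_subgroup_fg Q).1 (Subgroup.fg_of_index_ne_zero Q)
  obtain ⟨s, hs⟩ := hfg
  have hsQ : ∀ q ∈ s, Qc (ω : Filter G) q := by
    intro q hq
    refine (hQ q).1 ?_
    rw [← hs]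
    exact Subgroup.subset_closure hq
  choose f hf using hsQ
  have hev : ∀ᶠ x in (ω : Filter G), ∀ q : s, x * (q : G) * x⁻¹ = f q q.2 := by
    rw [Filter.eventually_all]
    exact fun q => hf q q.2
  obtain ⟨x0, hx0⟩ := hev.exists
  refine hω {x | ∀ q : s, x * (q : G) * x⁻¹ = f q q.2} ?_ hev
  refine (hC.image (fun c => x0 * c)).subset ?_
  intro x hx
  refine ⟨x0⁻¹ * x, ?_, by simp⟩
  rw [SetLike.mem_coe, ← hs, Subgroup.centralizer_closure, Subgroup.mem_centralizer_iff]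
  intro q hq
  have h1 := hx ⟨q, hq⟩
  have h2 := hx0 ⟨q, hq⟩
  simp only at h1 h2
  have h3 : x * q * x⁻¹ = x0 * q * x0⁻¹ := h1.trans h2.symm
  have h4 : x * q = x0 * q * x0⁻¹ * x := by rw [← h3]; group
  calc q * (x0⁻¹ * x) = x0⁻¹ * (x0 * q * x0⁻¹ * x) := by group
    _ = x0⁻¹ * (x * q) := by rw [h4]
    _ = x0⁻¹ * x * q := by group

end Pool.Agent.QI
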